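import Pool.Agent.N561.EK.FinY

/-!
# The complexified volume conjecture along odd integers, arborescent links with long twist regions

The definitions are in `Pool.Agent.TH563.UV.Arb` (weighted planar trees with crossing circles, the
coloured Jones polynomial of the arborescent link of a tree from the R-matrix of `U_q(sl_2)`, angle
structures of its complement and their volume), `Pool.Agent.TH563.UV.ArbD` (`Tree.circles`),
`Pool.Agent.TH563.Z.ArbXD` (`Tree.kids`), `Pool.Agent.N561.EK.ArbE` (`Twisted`, `AllTwisted`),
`Pool.Agent.TH563.CV.Dil` (the dilogarithm), `Pool.Agent.TH563.CV.Flat` (flattenings, the extended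
Rogers dilogarithm, and Neumann's sum for the complex volume) and `Pool.Agent.TH563.CV.CS`
(`HasCS`).
-/

set_option autoImplicit false

namespace Pool.Agent.Results.MP_b30479_gt.TwistedOddComplexVolume

open Finset Filter Topology Pool.Agent.TH563.UV.Arb Pool.Agent.N561.ArbK Pool.Agent.TH563.CV
open Pool.Agent.N561.ArbP (cont re_p re_m)

/-- The filter of the odd integers tending to infinity. -/
def oddTop : Filter ℕ := atTop ⊓ 𝓟 {n | Odd n}

/-- **The complexified volume conjecture along the odd integers for arborescent links with long
twist regions.** The following holds for every weighted planar tree `t` with at least one edge (any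
number of vertices, any valences), some vertices of which have a crossing circle (an unknotted
component of the link around the band of the vertex), if every vertex without crossing circle has
weight at least `16` in absolute value (that is, at least `16` crossings) or at least `32`
neighbours:
(1) for every `n` the coloured Jones polynomials of the link of `t` and of its mirror image are
continuous at `v_n`, so that `kashaev e f t n` is the value at `q = e^(2 π i / n)` in the usual sense;
(2) the volume functional has a maximum `V` over the angle structures (by Casson, Rivin, Hodgson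
and Thurston the hyperbolic volume of the link complement), and there is, modulo `π²`, exactly one
real number `C` with `HasCS t V C`, that is, such that modulo `π²`, `i (V + i C)` is the sum of the
extended Rogers dilogarithms over the ideal tetrahedra of the complement, with the shapes of an
angle structure of volume `V`, with a flattening and with an order of the vertices; the sum has
this value for all these structures, flattenings and orders (by Neumann's theorem `C` is the
Chern-Simons invariant of the complement; see `Pool.Agent.TH563.CV.Flat` for the conditions at the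
cusps);
(3) for all integers `e`, `f` (framing and sign), with `a_n = kashaev e f t n`: `a_n ≠ 0` for all large
odd `n`, `2 π log |a_n| / n` tends to `V` along odd `n`, and `a_{n+2} / a_n` tends to
`exp ((V + i C) / π)` along odd `n` for a representative `C` of the Chern-Simons invariant
(`HasCS t V C`);
(4) the same holds for the mirror image of the link, with `V - i C` in place of `V + i C`;
(5) if the tree is the double of a tree `s` (then the link is amphichiral), then (3) holds with
`C = 0` for the framing `e` and the sign `f` for which `a_n` is nonnegative for all `n ≥ 2`;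
(6) if the weight of the root is `0` and its children are, up to their order, the mirror images of
its children (then the link is a mutant of its mirror image, and amphichiral if the order is
suitable), then (3) holds with `C = 0` for a suitable framing and sign, and then `a_n` is real for
all `n ≥ 2`. -/
theorem result : ∀ t : Tree, AllTwisted t → 1 ≤ t.children →
    (∀ n : ℕ, ContinuousAt (jones t n) (root n) ∧ ContinuousAt (jones t.mirror n) (root n)) ∧
    ∃ V C₀ : ℝ, IsGreatest {W : ℝ | ∃ y : AngleTree, y.tree = t ∧ IsAngle y ∧ vol y = W} V ∧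
      (∀ C : ℝ, HasCS t V C ↔ ∃ k : ℤ, C = C₀ + k * Real.pi ^ 2) ∧
      (∀ x : FlatTree, x.angles.tree = t → IsAngle x.angles → vol x.angles = V → x.IsFlat →
        ∃ k : ℤ, x.complexVolume = Complex.I * (V + Complex.I * C₀) + k * (Real.pi : ℂ) ^ 2) ∧
      (∀ e f : ℤ, (∀ᶠ n : ℕ in oddTop, kashaev e f t n ≠ 0) ∧
        Tendsto (fun n : ℕ => 2 * Real.pi / n * Real.log ‖kashaev e f t n‖) oddTop (𝓝 V) ∧
        ∃ C : ℝ, HasCS t V C ∧
          Tendsto (fun n : ℕ => kashaev e f t (n + 2) / kashaev e f t n) oddTop
            (𝓝 (Complex.exp ((V + Complex.I * C) / Real.pi)))) ∧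
      (∀ e f : ℤ, (∀ᶠ n : ℕ in oddTop, kashaev e f t.mirror n ≠ 0) ∧
        Tendsto (fun n : ℕ => 2 * Real.pi / n * Real.log ‖kashaev e f t.mirror n‖) oddTop (𝓝 V) ∧
        ∃ C : ℝ, HasCS t V C ∧
          Tendsto (fun n : ℕ => kashaev e f t.mirror (n + 2) / kashaev e f t.mirror n) oddTop
            (𝓝 (Complex.exp ((V - Complex.I * C) / Real.pi)))) ∧
      (∀ s : Tree, t = s.double → HasCS t V 0 ∧
        (∀ n : ℕ, 2 ≤ n → ∃ r : ℝ, 0 ≤ r ∧ kashaev (4 * s.circles) 1 t n = r) ∧
        Tendsto (fun n : ℕ => kashaev (4 * s.circles) 1 t (n + 2) /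
          kashaev (4 * s.circles) 1 t n) oddTop (𝓝 (Complex.exp (V / Real.pi)))) ∧
      (t.weight = 0 → (t.kids.map Tree.mirror).Perm t.kids → HasCS t V 0 ∧ ∃ f : ℤ,
        (∀ n : ℕ, 2 ≤ n → ∃ r : ℝ, kashaev (2 * t.circles) f t n = r) ∧
        Tendsto (fun n : ℕ => kashaev (2 * t.circles) f t (n + 2) /
          kashaev (2 * t.circles) f t n) oddTop (𝓝 (Complex.exp (V / Real.pi)))) := by
  refine fun t ht hs => ⟨fun N => ⟨cont t N, cont t.mirror N⟩, ?_⟩
  obtain ⟨V, C₀, h2, hC₀, hX, h3, h3', h4, h5⟩ := mainM Pool.Agent.N561.EK.f_finy t hs ht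
  have hodd : oddTop ≤ atTop := inf_le_left
  have hpi : (Real.pi : ℂ) ≠ 0 := by exact_mod_cast Real.pi_ne_zero
  have e0 : (V : ℂ) / Real.pi = 2 * ((V / (2 * Real.pi) : ℝ) : ℂ) := by
    push_cast
    field_simp
  refine ⟨V, C₀, h2, hC₀, hX, fun e f => ?_, fun e f => ?_, fun s hst => ?_, fun hw hp => ?_⟩
  · obtain ⟨C, y, hC, hy, h⟩ := h3 e f
    obtain ⟨r1, _, r3, r4, _⟩ := Pool.Agent.W460.AX.rat _ _ y hy h
    rw [re_p] at r4
    refine ⟨hodd r1, (r4.mono_left hodd).congr fun n => by ring, C, hC, ?_⟩
    have e1 : ((V : ℂ) + Complex.I * C) / Real.pi =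
        2 * (((V : ℂ) + Complex.I * C) / (2 * Real.pi)) := by
      field_simp
    rw [e1]
    exact r3.mono_left hodd
  · obtain ⟨C, y, hC, hy, h⟩ := h3' e f
    obtain ⟨r1, _, r3, r4, _⟩ := Pool.Agent.W460.AX.rat _ _ y hy h
    rw [re_m] at r4
    refine ⟨hodd r1, (r4.mono_left hodd).congr fun n => by ring, C, hC, ?_⟩
    have e1 : ((V : ℂ) - Complex.I * C) / Real.pi =
        2 * (((V : ℂ) - Complex.I * C) / (2 * Real.pi)) := by
      field_simp
    rw [e1]
    exact r3.mono_left hodd
  · obtain ⟨hC, x, hx, h⟩ := h4 s hst
    refine ⟨hC, fun N hN => ?_, ?_⟩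
    · rw [hst]
      exact double_nonneg s N hN
    · have h6 := (Pool.Agent.W460.AX.rat _ _ _ (by exact_mod_cast hx.ne') h).2.2.1
      rw [e0]
      exact h6.mono_left hodd
  · obtain ⟨hC, f, x, hx, hr, h⟩ := h5 hw hp
    refine ⟨hC, f, hr, ?_⟩
    have h6 := (Pool.Agent.W460.AX.rat _ _ _ (by exact_mod_cast hx) h).2.2.1
    rw [e0]
    exact h6.mono_left hodd

end Pool.Agent.Results.MP_b30479_gt.TwistedOddComplexVolume
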